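import Pool.Agent.Helper25.KV.Goals

/-!
# Project KV, packet TIGHT
-/

namespace Pool.Agent.Helper25.KV

open Real MeasureTheory Set Filter Topology
open scoped ENNReal

theorem tight_fatou (C : ℝ) (F : ℕ → ℝ → ℝ) (f : ℝ → ℝ)
    (hF : ∀ᶠ j in atTop, AEStronglyMeasurable (F j) volume ∧ Integrable (fun x => F j x ^ 2) ∧
      (∫ x, F j x ^ 2) ≤ C)
    (hlim : ∀ x, Tendsto (fun j => F j x) atTop (𝓝 (f x))) :
    Integrable (fun x => f x ^ 2) ∧ (∫ x, f x ^ 2) ≤ C := by
  obtain ⟨N, hN⟩ := eventually_atTop.1 hF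
  have hG : ∀ j, AEStronglyMeasurable (F (j + N)) volume ∧
      Integrable (fun x => F (j + N) x ^ 2) ∧ (∫ x, F (j + N) x ^ 2) ≤ C :=
    fun j => hN (j + N) (by omega)
  have hGlim : ∀ x, Tendsto (fun j => F (j + N) x) atTop (𝓝 (f x)) :=
    fun x => (tendsto_add_atTop_iff_nat N).2 (hlim x)
  have hC : 0 ≤ C := le_trans (integral_nonneg fun x => sq_nonneg _) (hG 0).2.2
  have hfm : AEStronglyMeasurable f volume :=
    aestronglyMeasurable_of_tendsto_ae atTop (fun j => (hG j).1) (ae_of_all _ hGlim)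
  have hf2m : AEStronglyMeasurable (fun x => f x ^ 2) volume := hfm.pow 2
  have hb : (∫⁻ x, ENNReal.ofReal (f x ^ 2)) ≤ ENNReal.ofReal C := by
    have h1 : ∀ x, ENNReal.ofReal (f x ^ 2) =
        liminf (fun j => ENNReal.ofReal (F (j + N) x ^ 2)) atTop := by
      intro x
      have h2 : Tendsto (fun j => ENNReal.ofReal (F (j + N) x ^ 2)) atTop
          (𝓝 (ENNReal.ofReal (f x ^ 2))) :=
        ENNReal.tendsto_ofReal ((hGlim x).pow 2)
      exact h2.liminf_eq.symm
    calc (∫⁻ x, ENNReal.ofReal (f x ^ 2))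
        = ∫⁻ x, liminf (fun j => ENNReal.ofReal (F (j + N) x ^ 2)) atTop := by
          refine lintegral_congr fun x => h1 x
      _ ≤ liminf (fun j => ∫⁻ x, ENNReal.ofReal (F (j + N) x ^ 2)) atTop := by
          refine lintegral_liminf_le' fun j => ?_
          exact ((hG j).1.pow 2).aemeasurable.ennreal_ofReal
      _ ≤ liminf (fun _ : ℕ => ENNReal.ofReal C) atTop := by
          refine liminf_le_liminf (Eventually.of_forall fun j => ?_)
          rw [← ofReal_integral_eq_lintegral_ofReal (hG j).2.1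
            (Eventually.of_forall fun x => sq_nonneg _)]
          exact ENNReal.ofReal_le_ofReal (hG j).2.2
      _ = ENNReal.ofReal C := liminf_const _
  have hint : Integrable (fun x => f x ^ 2) := by
    refine ⟨hf2m, ?_⟩
    rw [hasFiniteIntegral_iff_ofReal (Eventually.of_forall fun x => sq_nonneg _)]
    exact hb.trans_lt ENNReal.ofReal_lt_top
  refine ⟨hint, ?_⟩
  rw [integral_eq_lintegral_of_nonneg_ae (Eventually.of_forall fun x => sq_nonneg _) hf2m]
  exact ENNReal.toReal_le_of_le_ofReal hC hb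

theorem tight_wt_nonneg (κ x : ℝ) : 0 ≤ (1 + |x|) ^ κ :=
  Real.rpow_nonneg (by positivity) _

theorem tight_one_le_wt {κ : ℝ} (hκ : 0 < κ) (x : ℝ) : 1 ≤ (1 + |x|) ^ κ :=
  Real.one_le_rpow (by linarith [abs_nonneg x]) hκ.le

theorem tight_wt_cont (κ : ℝ) : Continuous (fun x : ℝ => (1 + |x|) ^ κ) :=
  (continuous_const.add continuous_abs).rpow_const fun x => Or.inl (by
    have := abs_nonneg x
    show 1 + |x| ≠ 0
    positivity)

theorem thm_TIGHT : H_TIGHT := by
  refine ⟨?_, fun C F f hF hlim => tight_fatou C F f hF hlim⟩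
  intro ι l I κ C F f hl hκ hF hf hconv
  have hfirst : ∀ t ∈ I, Integrable (fun x => f t x ^ 2 * (1 + |x|) ^ κ) ∧
      (∫ x, f t x ^ 2 * (1 + |x|) ^ κ) ≤ C := by
    intro t ht
    have hch : ∀ n : ℕ, ∃ i, (Continuous (F i t) ∧
        Integrable (fun x => F i t x ^ 2 * (1 + |x|) ^ κ) ∧
        (∫ x, F i t x ^ 2 * (1 + |x|) ^ κ) ≤ C) ∧
        ∀ x, |x| ≤ (n : ℝ) + 1 → |F i t x - f t x| ≤ 1 / ((n : ℝ) + 1) := by
      intro n
      have h1 := hconv ((n : ℝ) + 1) (by positivity) (1 / ((n : ℝ) + 1)) (by positivity)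
      obtain ⟨i, hi1, hi2⟩ := (hF.and h1).exists
      exact ⟨i, hi1 t ht, hi2 t ht⟩
    choose i hi1 hi2 using hch
    have hsq : ∀ (g : ℝ → ℝ) (x : ℝ), (g x * Real.sqrt ((1 + |x|) ^ κ)) ^ 2 =
        g x ^ 2 * (1 + |x|) ^ κ := by
      intro g x
      rw [mul_pow, Real.sq_sqrt (tight_wt_nonneg κ x)]
    have hkey := tight_fatou C (fun n x => F (i n) t x * Real.sqrt ((1 + |x|) ^ κ))
      (fun x => f t x * Real.sqrt ((1 + |x|) ^ κ)) ?_ ?_
    · simp only [hsq] at hkey
      exact hkey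
    · refine Eventually.of_forall fun n => ?_
      have h1 : (fun x => (F (i n) t x * Real.sqrt ((1 + |x|) ^ κ)) ^ 2) =
          fun x => F (i n) t x ^ 2 * (1 + |x|) ^ κ := funext fun x => hsq (F (i n) t) x
      refine ⟨?_, ?_, ?_⟩
      · exact ((hi1 n).1.mul ((tight_wt_cont κ).sqrt)).aestronglyMeasurable
      · rw [h1]; exact (hi1 n).2.1
      · rw [h1]; exact (hi1 n).2.2
    · intro x
      refine Tendsto.mul_const _ ?_
      rw [tendsto_iff_norm_sub_tendsto_zero]
      have h1 : Tendsto (fun n : ℕ => 1 / ((n : ℝ) + 1)) atTop (𝓝 0) :=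
        tendsto_one_div_add_atTop_nhds_zero_nat
      refine squeeze_zero' (Eventually.of_forall fun n => norm_nonneg _) ?_ h1
      obtain ⟨N, hN⟩ := exists_nat_ge |x|
      filter_upwards [eventually_ge_atTop N] with n hn
      rw [Real.norm_eq_abs]
      apply hi2 n x
      have : (N : ℝ) ≤ n := by exact_mod_cast hn
      linarith
  refine ⟨hfirst, ?_⟩
  intro ε hε
  -- choice of the radius
  have hlimR : Tendsto (fun R : ℝ => 4 * |C| * (1 + R) ^ (-κ)) atTop (𝓝 0) := by
    have h1 : Tendsto (fun R : ℝ => (1 + R)) atTop atTop := tendsto_atTop_add_const_left _ _ tendsto_id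
    have h2 := ((tendsto_rpow_neg_atTop hκ).comp h1).const_mul (4 * |C|)
    simpa using h2
  obtain ⟨R, hR1, hR0⟩ := ((hlimR.eventually (ge_mem_nhds (half_pos hε))).and
    (eventually_gt_atTop (0 : ℝ))).exists
  have hR2 : 4 * |C| * (1 + R) ^ (-κ) ≤ ε / 2 := hR1
  set δ := Real.sqrt (ε / (4 * R)) with hδ
  have hδ0 : 0 < δ := Real.sqrt_pos.2 (by positivity)
  have hδ2 : δ ^ 2 = ε / (4 * R) := Real.sq_sqrt (by positivity)
  filter_upwards [hF, hconv R hR0 δ hδ0] with i hi1 hi2 t ht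
  obtain ⟨hFc, hFi, hFb⟩ := hi1 t ht
  obtain ⟨hfi, hfb⟩ := hfirst t ht
  have hC0 : 0 ≤ C :=
    le_trans (integral_nonneg fun x => mul_nonneg (sq_nonneg _) (tight_wt_nonneg κ x)) hFb
  have hfc := hf t ht
  have hdi : Integrable (fun x => (F i t x - f t x) ^ 2) := by
    have hg : Integrable (fun x => 2 * (F i t x ^ 2 * (1 + |x|) ^ κ) +
        2 * (f t x ^ 2 * (1 + |x|) ^ κ)) := (hFi.const_mul 2).add (hfi.const_mul 2)
    refine hg.mono' ((hFc.sub hfc).pow 2).aestronglyMeasurable (Eventually.of_forall fun x => ?_)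
    rw [Real.norm_eq_abs, abs_of_nonneg (sq_nonneg _)]
    have hw := tight_one_le_wt hκ x
    have h1 : F i t x ^ 2 ≤ F i t x ^ 2 * (1 + |x|) ^ κ := le_mul_of_one_le_right (sq_nonneg _) hw
    have h2 : f t x ^ 2 ≤ f t x ^ 2 * (1 + |x|) ^ κ := le_mul_of_one_le_right (sq_nonneg _) hw
    nlinarith [sq_nonneg (F i t x + f t x)]
  refine ⟨hdi, ?_⟩
  set K := (1 + R) ^ (-κ) with hK
  have hK0 : 0 ≤ K := Real.rpow_nonneg (by linarith) _
  have hpt : ∀ x, (F i t x - f t x) ^ 2 ≤ (Icc (-R) R).indicator (fun _ => δ ^ 2) x +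
      2 * K * (F i t x ^ 2 * (1 + |x|) ^ κ + f t x ^ 2 * (1 + |x|) ^ κ) := by
    intro x
    have hw0 := tight_wt_nonneg κ x
    have hnn : 0 ≤ 2 * K * (F i t x ^ 2 * (1 + |x|) ^ κ + f t x ^ 2 * (1 + |x|) ^ κ) := by
      positivity
    by_cases hx : |x| ≤ R
    · have hmem : x ∈ Icc (-R) R := abs_le.1 hx
      rw [indicator_of_mem hmem]
      have h1 := hi2 t ht x hx
      have h2 : (F i t x - f t x) ^ 2 ≤ δ ^ 2 := by
        rw [← sq_abs]
        exact pow_le_pow_left₀ (abs_nonneg _) h1 2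
      linarith
    · push Not at hx
      have hmem : x ∉ Icc (-R) R := fun h => absurd (abs_le.2 h) (not_le.2 hx)
      rw [indicator_of_notMem hmem, zero_add]
      have h1 : 1 ≤ K * (1 + |x|) ^ κ := by
        rw [hK, Real.rpow_neg (by linarith), ← div_eq_inv_mul, one_le_div (by positivity)]
        exact Real.rpow_le_rpow (by linarith) (by linarith) hκ.le
      have h2 : (F i t x - f t x) ^ 2 ≤ 2 * (F i t x ^ 2 + f t x ^ 2) := by
        nlinarith [sq_nonneg (F i t x + f t x)]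
      have h3 : 2 * (F i t x ^ 2 + f t x ^ 2) ≤
          2 * (F i t x ^ 2 + f t x ^ 2) * (K * (1 + |x|) ^ κ) :=
        le_mul_of_one_le_right (by positivity) h1
      linarith
  have hind : Integrable ((Icc (-R) R).indicator (fun _ : ℝ => δ ^ 2)) := by
    rw [integrable_indicator_iff measurableSet_Icc]
    exact integrableOn_const (by simp)
  have hsum : Integrable (fun x => F i t x ^ 2 * (1 + |x|) ^ κ + f t x ^ 2 * (1 + |x|) ^ κ) :=
    hFi.add hfi
  calc (∫ x, (F i t x - f t x) ^ 2)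
      ≤ ∫ x, ((Icc (-R) R).indicator (fun _ => δ ^ 2) x +
        2 * K * (F i t x ^ 2 * (1 + |x|) ^ κ + f t x ^ 2 * (1 + |x|) ^ κ)) :=
        integral_mono hdi (hind.add (hsum.const_mul _)) hpt
    _ = (∫ x, (Icc (-R) R).indicator (fun _ : ℝ => δ ^ 2) x) +
        2 * K * ((∫ x, F i t x ^ 2 * (1 + |x|) ^ κ) + ∫ x, f t x ^ 2 * (1 + |x|) ^ κ) := by
        rw [integral_add hind (hsum.const_mul _), integral_const_mul, integral_add hFi hfi]
    _ ≤ 2 * R * δ ^ 2 + 2 * K * (C + C) := by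
        have h1 : (∫ x, (Icc (-R) R).indicator (fun _ : ℝ => δ ^ 2) x) = 2 * R * δ ^ 2 := by
          rw [integral_indicator measurableSet_Icc, setIntegral_const]
          rw [Real.volume_real_Icc_of_le (by linarith)]
          simp only [smul_eq_mul]; ring
        rw [h1]
        have h2 : 2 * K * ((∫ x, F i t x ^ 2 * (1 + |x|) ^ κ) + ∫ x, f t x ^ 2 * (1 + |x|) ^ κ) ≤
            2 * K * (C + C) := mul_le_mul_of_nonneg_left (add_le_add hFb hfb) (by positivity)
        linarith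
    _ ≤ ε := by
        rw [abs_of_nonneg hC0] at hR2
        have h1 : 2 * R * δ ^ 2 = ε / 2 := by rw [hδ2]; field_simp; ring
        rw [h1]
        linarith

end Pool.Agent.Helper25.KV
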