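import Pool.Agent.Helper41.KV.GoalsD

/-!
# Project KV (`MP_66be51_an`), packet TD: derivatives and bounds along the reference curve
-/

set_option autoImplicit false

namespace Pool.Agent.Helper41.KV

open Real MeasureTheory Pool.Agent.Helper33.KV

/-- chain rule along the curve -/
theorem td_chain {α : ℝ} (h0 : 0 < α) (h1 : α < 1) (hC : S_CURV) {Φ : F3}
    (hs : ContDiff ℝ (⊤ : ℕ∞) (fun p : ℝ × ℝ × ℝ => Φ p.1 p.2.1 p.2.2)) {t : ℝ} (y : ℝ)
    (ht : 0 < t) :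
    HasDerivAt (fun τ => Φ (rho α τ) (Real.log (sig α τ)) y)
        (rho α t / lam α t ^ 3 * Dop α Φ (rho α t) (Real.log (sig α t)) y) t := by
  obtain ⟨-, -, -, -, -, -, -, -, hr, hl⟩ := (hC α h0 h1).1 t ht
  have hd : ∀ p : ℝ × ℝ × ℝ, HasFDerivAt (fun p : ℝ × ℝ × ℝ => Φ p.1 p.2.1 p.2.2)
      (fderiv ℝ (fun p : ℝ × ℝ × ℝ => Φ p.1 p.2.1 p.2.2) p) p := fun p =>
    (hs.differentiable (by simp)).differentiableAt.hasFDerivAt
  set L := fderiv ℝ (fun p : ℝ × ℝ × ℝ => Φ p.1 p.2.1 p.2.2)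
    (rho α t, Real.log (sig α t), y) with hL
  have hc : HasDerivAt (fun τ => (rho α τ, Real.log (sig α τ), y))
      (2 * α * rho α t ^ 2 / lam α t ^ 3, rho α t / lam α t ^ 3, (0 : ℝ)) t :=
    hr.prodMk (hl.prodMk (hasDerivAt_const t y))
  have h2 : HasDerivAt (fun τ => Φ (rho α τ) (Real.log (sig α τ)) y)
      (L (2 * α * rho α t ^ 2 / lam α t ^ 3, rho α t / lam α t ^ 3, (0 : ℝ))) t := by
    have h := HasFDerivAt.comp_hasDerivAt t (hd (rho α t, Real.log (sig α t), y)) hc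
    exact h
  have h3 : HasDerivAt (fun r' => Φ r' (Real.log (sig α t)) y) (L (1, 0, 0)) (rho α t) := by
    have hc3 : HasDerivAt (fun r' : ℝ => (r', Real.log (sig α t), y)) (1, (0 : ℝ), (0 : ℝ))
        (rho α t) :=
      (hasDerivAt_id _).prodMk ((hasDerivAt_const _ _).prodMk (hasDerivAt_const _ y))
    exact (hd (rho α t, Real.log (sig α t), y)).comp_hasDerivAt (rho α t) hc3
  have h4 : HasDerivAt (fun l' => Φ (rho α t) l' y) (L (0, 1, 0)) (Real.log (sig α t)) := by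
    have hc4 : HasDerivAt (fun l' : ℝ => (rho α t, l', y)) ((0 : ℝ), (1 : ℝ), (0 : ℝ))
        (Real.log (sig α t)) :=
      (hasDerivAt_const _ _).prodMk ((hasDerivAt_id _).prodMk (hasDerivAt_const _ y))
    exact (hd (rho α t, Real.log (sig α t), y)).comp_hasDerivAt (Real.log (sig α t)) hc4
  have h5 : ((2 * α * rho α t ^ 2 / lam α t ^ 3, rho α t / lam α t ^ 3, (0 : ℝ)) : ℝ × ℝ × ℝ)
      = (2 * α * rho α t ^ 2 / lam α t ^ 3) • ((1, 0, 0) : ℝ × ℝ × ℝ)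
        + (rho α t / lam α t ^ 3) • ((0, 1, 0) : ℝ × ℝ × ℝ) := by
    simp
  rw [h5, map_add, map_smul, map_smul, smul_eq_mul, smul_eq_mul] at h2
  rw [Dop, h3.deriv, h4.deriv]
  convert h2 using 1
  ring

theorem td_iter (Φ : F3) (k : ℕ) (r l y : ℝ) :
    iteratedDeriv k (Φ r l) y = (dY^[k] Φ) r l y := by
  induction k generalizing Φ with
  | zero => simp
  | succ k ih =>
    rw [iteratedDeriv_succ', Function.iterate_succ_apply, ← ih (dY Φ)]
    rfl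

/-- absorb the logarithm -/
theorem td_absorb {r l C C' δ B x : ℝ} {m n : ℕ} (hr : 0 < r) (hB : 0 ≤ B)
    (hl : (1 + |l|) ^ n ≤ C' * r ^ (-δ)) (hx : x ≤ C * r ^ m * (1 + |l|) ^ n * B) :
    x ≤ (|C| * C') * r ^ ((m : ℝ) - δ) * B := by
  have h1 : r ^ ((m : ℝ) - δ) = r ^ m * r ^ (-δ) := by
    rw [sub_eq_add_neg, Real.rpow_add hr, Real.rpow_natCast]
  have h2 : 0 ≤ (1 + |l|) ^ n := by positivity
  have h3 : 0 ≤ r ^ m := by positivity
  calc x ≤ C * r ^ m * (1 + |l|) ^ n * B := hx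
    _ ≤ |C| * r ^ m * (1 + |l|) ^ n * B := by
        gcongr
        exact le_abs_self C
    _ ≤ |C| * r ^ m * (C' * r ^ (-δ)) * B := by gcongr
    _ = (|C| * C') * r ^ ((m : ℝ) - δ) * B := by rw [h1]; ring

/-- Packet TD. -/
theorem thm_TD (hC : S_CURV) (hM : S_MCL1) (hM2 : S_MCL2) : S_TD := by
  intro α h0 h1
  obtain ⟨hcv, -, -, -, -, hlog⟩ := hC α h0 h1
  have hr1 : ∀ t, 0 < t → sig α t ≤ 1 → 0 < rho α t ∧ rho α t ≤ 1 := fun t ht hs =>
    ⟨(hcv t ht).2.2.1, Real.rpow_le_one (hcv t ht).1.le hs (by linarith)⟩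
  obtain ⟨-, -, -, -, -, -, -, -, -, -, -, -, -, -, -, -, hT, hP⟩ := hM
  refine ⟨fun Φ hΦ t y ht => ?_, fun Φ _ k r l y => td_iter Φ k r l y, fun m Φ δ hδ hΦ => ?_,
    fun m Φ δ hδ hΦ => ?_⟩
  · rcases hΦ with h | h
    · exact td_chain h0 h1 hC (hT Φ h) y ht
    · exact td_chain h0 h1 hC (hP Φ h) y ht
  · obtain ⟨C, n, hb⟩ := hM2.2.2.1 m Φ hΦ
    obtain ⟨C', hC'⟩ := hlog δ n hδ
    refine ⟨|C| * C', n, fun t y ht hs => ?_⟩
    obtain ⟨ha, hb1⟩ := hr1 t ht hs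
    obtain ⟨hp, hq⟩ := hb (rho α t) (Real.log (sig α t)) y ha hb1
    exact ⟨fun hy => td_absorb ha (Real.exp_pos _).le (hC' t ht hs) (hp hy),
      fun hy => td_absorb ha (by positivity) (hC' t ht hs) (hq hy)⟩
  · obtain ⟨C, n, hb⟩ := hM2.2.2.2 m Φ hΦ
    obtain ⟨C', hC'⟩ := hlog δ n hδ
    refine ⟨|C| * C', n, fun t y ht hs => ?_⟩
    obtain ⟨ha, hb1⟩ := hr1 t ht hs
    exact td_absorb ha (by positivity) (hC' t ht hs) (hb (rho α t) (Real.log (sig α t)) y ha hb1)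

end Pool.Agent.Helper41.KV
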