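import Pool.Agent.Helper48.KV.GoalsJ

/-!
# PROJECT KV (MP_66be51_an), section G5, packet DW: integration by parts in time
-/

set_option autoImplicit false

open MeasureTheory Set Filter Topology

namespace Pool.Agent.Helper69.KV

open Pool.Agent.Helper33.KV Pool.Agent.Helper41.KV Pool.Agent.Helper48.KV

/-- The general form: `∫_τ^t s^{-κ} f <= 2 M t^κ` if `∫_τ^s f <= M s^{16κ}` and `t <= 1`. -/
theorem dw_aux {κ τ t M : ℝ} {f : ℝ → ℝ} (hκ : 0 < κ) (hτ : 0 < τ) (hτt : τ ≤ t) (ht1 : t ≤ 1)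
    (hM : 0 ≤ M) (hf : Continuous f)
    (hF : ∀ s ∈ Icc τ t, (∫ r in τ..s, f r) ≤ M * s ^ (16 * κ)) :
    (∫ s in τ..t, s ^ (-κ) * f s) ≤ 2 * M * t ^ κ := by
  have ht0 : 0 < t := lt_of_lt_of_le hτ hτt
  have huI : uIcc τ t = Icc τ t := uIcc_of_le hτt
  have hpos : ∀ s ∈ uIcc τ t, 0 < s := fun s hs => by
    rw [huI] at hs
    exact lt_of_lt_of_le hτ hs.1
  have h1 : ∀ s ∈ uIcc τ t, HasDerivAt (fun s : ℝ => s ^ (-κ)) (-κ * s ^ (-κ - 1)) s :=
    fun s hs => Real.hasDerivAt_rpow_const (Or.inl (hpos s hs).ne')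
  have h2 : ∀ s ∈ uIcc τ t, HasDerivAt (fun s : ℝ => ∫ r in τ..s, f r) (f s) s := fun s _ =>
    intervalIntegral.integral_hasDerivAt_right (hf.intervalIntegrable _ _)
      hf.aestronglyMeasurable.stronglyMeasurableAtFilter hf.continuousAt
  have hc : ∀ p : ℝ, ContinuousOn (fun s : ℝ => s ^ p) (uIcc τ t) := fun p s hs =>
    (Real.continuousAt_rpow_const s p (Or.inl (hpos s hs).ne')).continuousWithinAt
  have hcF : Continuous (fun s : ℝ => ∫ r in τ..s, f r) :=
    intervalIntegral.continuous_primitive (fun a b => hf.intervalIntegrable a b) τ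
  have h3 := intervalIntegral.integral_mul_deriv_eq_deriv_mul h1 h2
    ((continuousOn_const.mul (hc (-κ - 1))).intervalIntegrable) (hf.intervalIntegrable _ _)
  rw [h3, intervalIntegral.integral_same, mul_zero, sub_zero]
  have h4 : -(∫ s in τ..t, (-κ * s ^ (-κ - 1)) * ∫ r in τ..s, f r)
      ≤ ∫ s in τ..t, κ * M * s ^ (15 * κ - 1) := by
    rw [← intervalIntegral.integral_neg]
    refine intervalIntegral.integral_mono_on hτt ?_ ?_ fun s hs => ?_
    · exact ((continuousOn_const.mul (hc (-κ - 1))).mul hcF.continuousOn).neg.intervalIntegrable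
    · exact (continuousOn_const.mul (hc (15 * κ - 1))).intervalIntegrable
    · have hs0 : 0 < s := lt_of_lt_of_le hτ hs.1
      have e : s ^ (15 * κ - 1) = s ^ (-κ - 1) * s ^ (16 * κ) := by
        rw [← Real.rpow_add hs0]
        congr 1
        ring
      have hp : 0 ≤ κ * s ^ (-κ - 1) := mul_nonneg hκ.le (Real.rpow_nonneg hs0.le _)
      have h5 := mul_le_mul_of_nonneg_left (hF s hs) hp
      calc -(-κ * s ^ (-κ - 1) * ∫ r in τ..s, f r)
          = κ * s ^ (-κ - 1) * ∫ r in τ..s, f r := by ring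
        _ ≤ κ * s ^ (-κ - 1) * (M * s ^ (16 * κ)) := h5
        _ = κ * M * s ^ (15 * κ - 1) := by rw [e]; ring
  have h6 : (∫ s in τ..t, κ * M * s ^ (15 * κ - 1)) ≤ M * t ^ (15 * κ) := by
    rw [intervalIntegral.integral_const_mul, integral_rpow (Or.inl (by linarith))]
    have e : 15 * κ - 1 + 1 = 15 * κ := by ring
    rw [e]
    have h7 : 0 ≤ τ ^ (15 * κ) := Real.rpow_nonneg hτ.le _
    have h8 : 0 ≤ t ^ (15 * κ) := Real.rpow_nonneg ht0.le _
    have h9 : (t ^ (15 * κ) - τ ^ (15 * κ)) / (15 * κ) ≤ t ^ (15 * κ) / (15 * κ) := by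
      apply div_le_div_of_nonneg_right _ (by positivity)
      linarith
    calc κ * M * ((t ^ (15 * κ) - τ ^ (15 * κ)) / (15 * κ))
        ≤ κ * M * (t ^ (15 * κ) / (15 * κ)) :=
          mul_le_mul_of_nonneg_left h9 (by positivity)
      _ = M * t ^ (15 * κ) / 15 := by field_simp
      _ ≤ M * t ^ (15 * κ) := by
          have : 0 ≤ M * t ^ (15 * κ) := mul_nonneg hM h8
          linarith
  have h10 : t ^ (-κ) * (∫ r in τ..t, f r) ≤ M * t ^ (15 * κ) := by
    have h11 := mul_le_mul_of_nonneg_left (hF t ⟨hτt, le_refl t⟩) (Real.rpow_nonneg ht0.le (-κ))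
    have e : t ^ (15 * κ) = t ^ (-κ) * t ^ (16 * κ) := by
      rw [← Real.rpow_add ht0]
      congr 1
      ring
    calc t ^ (-κ) * (∫ r in τ..t, f r) ≤ t ^ (-κ) * (M * t ^ (16 * κ)) := h11
      _ = M * t ^ (15 * κ) := by rw [e]; ring
  have h12 : t ^ (15 * κ) ≤ t ^ κ := Real.rpow_le_rpow_of_exponent_ge ht0 ht1 (by linarith)
  have h13 : M * t ^ (15 * κ) ≤ M * t ^ κ := mul_le_mul_of_nonneg_left h12 hM
  linarith

/-- Packet DW. -/
theorem dw (h : S_SCL) : S_DW := by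
  intro α κ h0 h1 hκ hκ2
  refine ⟨2 * 7 ^ 4, by norm_num, fun τ T f hτ hτT hT hf _ hF t ht => ?_⟩
  -- continuous extension
  let g : ℝ → ℝ := IccExtend hτT ((Icc τ T).domRestrict f)
  have hg : Continuous g := (hf.domRestrict).Icc_extend'
  have hgf : ∀ s ∈ Icc τ T, g s = f s := fun s hs => IccExtend_of_mem hτT _ hs
  have hint : ∀ s ∈ Icc τ T, ∀ p : ℝ → ℝ,
      (∫ r in τ..s, p r * g r) = ∫ r in τ..s, p r * f r := by
    intro s hs p
    refine intervalIntegral.integral_congr fun r hr => ?_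
    rw [uIcc_of_le hs.1] at hr
    rw [hgf r ⟨hr.1, hr.2.trans hs.2⟩]
  have hint1 : ∀ s ∈ Icc τ T, (∫ r in τ..s, g r) = ∫ r in τ..s, f r := by
    intro s hs
    have := hint s hs (fun _ => 1)
    simpa using this
  have hpos : ∀ s ∈ Icc τ T, 0 < s := fun s hs => lt_of_lt_of_le hτ hs.1
  have hle : ∀ s ∈ Icc τ T, (4 * α + 3) * s ≤ 1 := fun s hs =>
    (mul_le_mul_of_nonneg_left hs.2 (by linarith)).trans hT
  have ht1 : t ≤ 1 := by
    have h2 := hle t ht
    have h3 := hpos t ht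
    nlinarith [mul_pos h0 h3]
  have key := dw_aux (M := 7 ^ 4) (f := g) hκ hτ ht.1 ht1 (by norm_num) hg fun s hs => by
    have hsT : s ∈ Icc τ T := ⟨hs.1, hs.2.trans ht.2⟩
    rw [hint1 s hsT]
    obtain ⟨-, -, -, -, hr0, -, -, -, -, -, -, hr⟩ := h α s h0 h1 (hpos s hsT) (hle s hsT)
    have h5 : rho α s ^ 4 ≤ (7 * s ^ (4 * κ)) ^ 4 := pow_le_pow_left₀ hr0.le (hr κ hκ hκ2) 4
    have h6 : (7 * s ^ (4 * κ)) ^ 4 = 7 ^ 4 * s ^ (16 * κ) := by
      rw [mul_pow, ← Real.rpow_natCast (s ^ (4 * κ)) 4, ← Real.rpow_mul (hpos s hsT).le]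
      congr 2
      push_cast
      ring
    rw [← h6]
    exact (hF s hsT).trans h5
  rw [hint t ht (fun s => s ^ (-κ))] at key
  exact key

end Pool.Agent.Helper69.KV
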